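import Mathlib
import Pool.Agent.H672R2.Auto.Defs
import Pool.Agent.H672R2.Auto.Main

set_option autoImplicit false

namespace Pool.Agent.Results.MP_0f91f8_co.AutomaticColourings

open Pool.Agent.H672R2.Auto

/-- For finitely many automatic sequences `c t`, in arbitrary bases `k t ≥ 2`, there is a
Pythagorean triple `x, y, z` of positive integers such that every `c t` takes the same value at
`x`, `y` and `z`. -/
theorem result {m : ℕ} {C : Type*} (k : Fin m → ℕ) (hk : ∀ t, 2 ≤ k t) (c : Fin m → ℕ → C)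
    (hauto : ∀ t, IsAutomatic (k t) (c t)) :
    ∃ x y z : ℕ, 0 < x ∧ 0 < y ∧ 0 < z ∧ x ^ 2 + y ^ 2 = z ^ 2 ∧
      ∀ t, c t x = c t y ∧ c t y = c t z :=
  main k hk c hauto

end Pool.Agent.Results.MP_0f91f8_co.AutomaticColourings
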