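import Pool.Agent.H638.GP.Full

set_option autoImplicit false

/-!
Colourings determined by the signs of finitely many generalised polynomials, valuations modulo `d`,
last nonzero digits and the position of `t log n` modulo one have monochromatic Pythagorean triples.
-/

namespace Pool.Agent.Results.MP_0f91f8_co.GeneralisedPolynomialColourings

/-- Generalised polynomials: obtained from real constants and the variable by addition,
multiplication and the floor function. -/
inductive GenPoly : (ℕ → ℝ) → Prop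
  | const (c : ℝ) : GenPoly (fun _ => c)
  | var : GenPoly (fun n => (n : ℝ))
  | add {f g : ℕ → ℝ} : GenPoly f → GenPoly g → GenPoly (fun n => f n + g n)
  | mul {f g : ℕ → ℝ} : GenPoly f → GenPoly g → GenPoly (fun n => f n * g n)
  | floor {f : ℕ → ℝ} : GenPoly f → GenPoly (fun n => (⌊f n⌋ : ℝ))

/-- the functions `g i` have the same signs (`-`, `0` or `+`) at `m` and at `n` -/
def SameSigns {s : ℕ} (g : Fin s → ℕ → ℝ) (m n : ℕ) : Prop :=
  ∀ i, SignType.sign (g i m) = SignType.sign (g i n)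

/-- invariance of a relation on the positive integers under dilations -/
def DilationInvariant (E : ℕ → ℕ → Prop) : Prop :=
  ∀ k m n : ℕ, 0 < k → 0 < m → 0 < n → E m n → E (k * m) (k * n)

/-- at each `p` in `S` the valuations agree modulo `d` and the parts prime to `p` agree
modulo `p ^ r` -/
def SameAdic (S : Finset ℕ) (d r : ℕ) (m n : ℕ) : Prop :=
  ∀ p ∈ S, m.factorization p ≡ n.factorization p [MOD d] ∧
    m / p ^ m.factorization p ≡ n / p ^ n.factorization p [MOD p ^ r]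

/-- for each `j` the fractional parts of `t j * log m` and `t j * log n` are on the same side of
`β j` -/
def SameArch {q : ℕ} (t β : Fin q → ℝ) (m n : ℕ) : Prop :=
  ∀ j, SignType.sign (Int.fract (t j * Real.log m) - β j) =
    SignType.sign (Int.fract (t j * Real.log n) - β j)

/-- a Pythagorean triple of integers larger than `K` whose members are related -/
def HasTriple (E : ℕ → ℕ → Prop) (K : ℕ) : Prop :=
  ∃ x y z : ℕ, K < x ∧ K < y ∧ K < z ∧ x ^ 2 + y ^ 2 = z ^ 2 ∧ E x y ∧ E y z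

theorem GenPoly.toEx {f : ℕ → ℝ} (h : GenPoly f) : ∃ e : H638.GP.Ex, ∀ n, e.ev n = f n := by
  induction h with
  | const c => exact ⟨.const c, fun n => rfl⟩
  | var => exact ⟨.var, fun n => rfl⟩
  | add _ _ h1 h2 =>
    obtain ⟨a, ha⟩ := h1
    obtain ⟨b, hb⟩ := h2
    exact ⟨.add a b, fun n => by simp only [H638.GP.Ex.ev]; rw [ha, hb]⟩
  | mul _ _ h1 h2 =>
    obtain ⟨a, ha⟩ := h1
    obtain ⟨b, hb⟩ := h2
    exact ⟨.mul a b, fun n => by simp only [H638.GP.Ex.ev]; rw [ha, hb]⟩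
  | floor _ h1 =>
    obtain ⟨a, ha⟩ := h1
    exact ⟨.fl a, fun n => by simp only [H638.GP.Ex.ev]; rw [ha]⟩

theorem dilates {s : ℕ} {g : Fin s → ℕ → ℝ} (hg : ∀ i, GenPoly (g i)) (M K : ℕ) :
    ∃ k : ℕ, K < k ∧ ∀ a b : ℕ, 1 ≤ a → a ≤ M → 1 ≤ b → b ≤ M →
      SameSigns g (k * a) (k * b) := by
  choose e he using fun i => (hg i).toEx
  obtain ⟨k, hk, h⟩ := H638.GP.main e (M + 1) K (Nat.succ_pos M)
  refine ⟨k, hk, fun a b ha ha' hb hb' i => ?_⟩
  have := h i a b ha (by omega) hb (by omega)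
  rwa [he, he] at this

/-- Main theorem. -/
theorem result :
    (∀ (s : ℕ) (g : Fin s → ℕ → ℝ), (∀ i, GenPoly (g i)) → ∀ M K : ℕ, ∃ k : ℕ, K < k ∧
      ∀ a b : ℕ, 1 ≤ a → a ≤ M → 1 ≤ b → b ≤ M → SameSigns g (k * a) (k * b)) ∧
    (∀ (s : ℕ) (g : Fin s → ℕ → ℝ), (∀ i, GenPoly (g i)) → ∀ E : ℕ → ℕ → Prop,
      DilationInvariant E → HasTriple E 0 → ∀ K : ℕ,
        HasTriple (fun m n => SameSigns g m n ∧ E m n) K) ∧
    (∀ (s : ℕ) (g : Fin s → ℕ → ℝ), (∀ i, GenPoly (g i)) → ∀ (S : Finset ℕ) (d r : ℕ),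
      (∀ p ∈ S, p.Prime) → 0 < d → ∀ (q : ℕ) (t β : Fin q → ℝ) (κ : Type) (c : ℕ → κ),
        (∀ m n : ℕ, 0 < m → 0 < n → SameSigns g m n → SameAdic S d r m n → SameArch t β m n →
          c m = c n) → ∀ K : ℕ, HasTriple (fun m n => c m = c n) K) := by
  have h2 : ∀ (s : ℕ) (g : Fin s → ℕ → ℝ), (∀ i, GenPoly (g i)) → ∀ E : ℕ → ℕ → Prop,
      DilationInvariant E → HasTriple E 0 → ∀ K : ℕ,
        HasTriple (fun m n => SameSigns g m n ∧ E m n) K := by
    intro s g hg E hE ⟨x, y, z, hx, hy, hz, hxyz, h1, h2⟩ K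
    obtain ⟨k, hk, hd⟩ := dilates hg (x + y + z) K
    have hk0 : 0 < k := by omega
    refine ⟨k * x, k * y, k * z, ?_, ?_, ?_, ?_, ⟨?_, hE k x y hk0 hx hy h1⟩,
      ⟨?_, hE k y z hk0 hy hz h2⟩⟩
    · exact lt_of_lt_of_le hk (Nat.le_mul_of_pos_right k hx)
    · exact lt_of_lt_of_le hk (Nat.le_mul_of_pos_right k hy)
    · exact lt_of_lt_of_le hk (Nat.le_mul_of_pos_right k hz)
    · rw [mul_pow, mul_pow, mul_pow, ← hxyz]; ring
    · exact hd x y hx (by omega) hy (by omega)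
    · exact hd y z hy (by omega) hz (by omega)
  refine ⟨fun s g hg => dilates hg, h2, ?_⟩
  intro s g hg S d r hS hd q t β κ c hc K
  choose e he using fun i => (hg i).toEx
  obtain ⟨x, y, z, hx, hy, hz, hxyz, ⟨h1, h2, h3⟩, ⟨h4, h5, h6⟩⟩ :=
    H638.GP.full e S hS d r hd t β K
  refine ⟨x, y, z, hx, hy, hz, hxyz, hc x y (by omega) (by omega) (fun i => ?_) h2 h3,
    hc y z (by omega) (by omega) (fun i => ?_) h5 h6⟩
  · have := h1 i
    rwa [he, he] at this
  · have := h4 i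
    rwa [he, he] at this

end Pool.Agent.Results.MP_0f91f8_co.GeneralisedPolynomialColourings
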