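import Mathlib
import Pool.Agent.H161R5.PyAuto
import Pool.Agent.H161R5.PyDeg

set_option autoImplicit false

namespace Pool.Agent.Results.MP_0f91f8_co.LowDegreeColourings

open MvPolynomial Pool.Agent.H161R5 Pool.Agent.H672R2.Auto

/-- Let `p` be a prime and let `χ` be a colouring of the natural numbers which for every `ε > 0`
and for arbitrarily large `M` is, on `[0, p^M)`, a function of a fixed `p`-automatic sequence `c`
and of `s` polynomials over `ZMod p` of degree at most `D` in the `M` base-`p` digits, where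
`s D ≤ ε M`. Then there are arbitrarily large monochromatic Pythagorean triples. -/
theorem result (p : ℕ) [Fact p.Prime] {C α : Type*} (c : ℕ → C) (hc : IsAutomatic p c)
    (χ : ℕ → α)
    (h : ∀ ε : ℝ, 0 < ε → ∀ M₀ : ℕ, ∃ M s D : ℕ, M₀ ≤ M ∧ (s * D : ℝ) ≤ ε * M ∧
      ∃ P : Fin s → MvPolynomial (Fin M) (ZMod p), (∀ j, (P j).totalDegree ≤ D) ∧
        ∀ m n : ℕ, m < p ^ M → n < p ^ M → c m = c n →
          (∀ j, eval (fun i : Fin M => ((m / p ^ (i : ℕ) % p : ℕ) : ZMod p)) (P j) =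
            eval (fun i : Fin M => ((n / p ^ (i : ℕ) % p : ℕ) : ZMod p)) (P j)) →
          χ m = χ n) (K : ℕ) :
    ∃ x y z : ℕ, K < x ∧ K < y ∧ K < z ∧ x ^ 2 + y ^ 2 = z ^ 2 ∧ χ x = χ y ∧ χ y = χ z := by
  classical
  have hp : p.Prime := Fact.out
  have hp2 := hp.two_le
  obtain ⟨x, y, z, w, L, hx, hy, hz, hxyz, hw, hL, hbx, hby, hbz, hcol⟩ := auto_part hp2 hc
  obtain ⟨M, s, D, hM, hsD, P, hP, hχ⟩ := h (1 / (6 * L * p)) (by positivity) (2 * L * (K + 2))
  set q := 3 * s * (D * (p - 1)) + 1 with hq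
  have hlen : L * (K + 1 + q) ≤ M := by
    have h1 : (s * D : ℝ) * (6 * L * p) ≤ M := by
      have hpos : (0 : ℝ) < 6 * L * p := by positivity
      calc (s * D : ℝ) * (6 * L * p) ≤ 1 / (6 * L * p) * M * (6 * L * p) := by gcongr
        _ = M := by field_simp
    have h2 : s * D * (6 * L * p) ≤ M := by exact_mod_cast h1
    have h3 : 2 * (L * (3 * s * (D * (p - 1)))) ≤ M := by
      refine le_trans ?_ h2
      have : p - 1 ≤ p := Nat.sub_le _ _
      calc 2 * (L * (3 * s * (D * (p - 1)))) = s * D * (6 * L * (p - 1)) := by ring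
        _ ≤ _ := Nat.mul_le_mul_left _ (Nat.mul_le_mul_left _ this)
    have h4 : 2 * (L * (K + 1 + q)) = 2 * L * (K + 2) + 2 * (L * (3 * s * (D * (p - 1)))) := by
      rw [hq]; ring
    omega
  have hb : ∀ j, (![x * w, y * w, z * w] : Fin 3 → ℕ) j < p ^ L := by
    intro j
    fin_cases j
    · exact hbx
    · exact hby
    · exact hbz
  obtain ⟨t, ⟨i, hi⟩, ht⟩ := deg_part (p := p) hL (κ := 3) ![x * w, y * w, z * w] hb
    (M := M) (r := K + 1) (q := q) P hP (by rw [hq]; omega)
  set e := ee (K + 1) q t with he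
  set n := ∑ u ∈ Finset.range (K + 1 + q), e u * p ^ (L * u) with hn
  have he1 : ∀ u, e u ≤ 1 := ee_le _ _ _
  have he0 : e 0 = 0 := by
    rw [he]; unfold ee
    rw [dif_neg (by omega)]
  have hei : e (K + 1 + i) = 1 := by
    rw [he]; unfold ee
    have h1 : K + 1 ≤ K + 1 + (i : ℕ) ∧ K + 1 + (i : ℕ) - (K + 1) < q := ⟨by omega, by
      rw [Nat.add_sub_cancel_left]; exact i.2⟩
    rw [dif_pos h1]
    have h2 : (⟨K + 1 + (i : ℕ) - (K + 1), h1.2⟩ : Fin q) = i := by
      apply Fin.ext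
      simp
    rw [h2, if_neg hi]
  have hex : ∃ u < K + 1 + q, e u = 1 := ⟨K + 1 + i, by have := i.2; omega, hei⟩
  obtain ⟨hc1, hc2⟩ := hcol e he1 he0 (K + 1 + q) hex
  -- size of n
  have hnK : K < n := by
    have h1 : e (K + 1 + i) * p ^ (L * (K + 1 + i)) ≤ n := by
      rw [hn]
      exact Finset.single_le_sum (f := fun u => e u * p ^ (L * u)) (fun u _ => Nat.zero_le _)
        (Finset.mem_range.2 (by have := i.2; omega))
    rw [hei, one_mul] at h1
    have h2 : K < p ^ (L * (K + 1 + i)) := by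
      calc K < p ^ K := Nat.lt_pow_self hp2
        _ ≤ _ := Nat.pow_le_pow_right hp.pos (by nlinarith)
    omega
  have hlt : ∀ b, b < p ^ L → b * n < p ^ M := by
    intro b hb'
    refine lt_of_lt_of_le ?_ (Nat.pow_le_pow_right hp.pos hlen)
    have key : ∀ N, b * ∑ u ∈ Finset.range N, e u * p ^ (L * u) < p ^ (L * N) := by
      intro N
      induction N with
      | zero => simp
      | succ N ih =>
        rw [Finset.sum_range_succ, mul_add]
        have h1 : b * (e N * p ^ (L * N)) ≤ b * p ^ (L * N) := by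
          refine Nat.mul_le_mul_left _ ?_
          calc e N * p ^ (L * N) ≤ 1 * p ^ (L * N) := Nat.mul_le_mul_right _ (he1 N)
            _ = _ := one_mul _
        calc b * ∑ u ∈ Finset.range N, e u * p ^ (L * u) + b * (e N * p ^ (L * N))
            < p ^ (L * N) + b * p ^ (L * N) := by omega
          _ = (b + 1) * p ^ (L * N) := by ring
          _ ≤ p ^ L * p ^ (L * N) := Nat.mul_le_mul_right _ hb'
          _ = p ^ (L * (N + 1)) := by rw [← pow_add]; ring_nf
    exact key _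
  have hPe : ∀ (a : Fin 3) j,
      eval (dv p M ((![x * w, y * w, z * w] : Fin 3 → ℕ) a * n)) (P j) = eval 0 (P j) :=
    fun a j => ht a j
  have hgrow : ∀ a, 0 < a → K < a * w * n := by
    intro a ha
    have : 1 ≤ a * w := Nat.mul_pos ha hw
    calc K < 1 * n := by omega
      _ ≤ a * w * n := Nat.mul_le_mul_right _ this
  refine ⟨x * w * n, y * w * n, z * w * n, hgrow x hx, hgrow y hy, hgrow z hz, ?_, ?_, ?_⟩
  · calc (x * w * n) ^ 2 + (y * w * n) ^ 2 = (x ^ 2 + y ^ 2) * (w * n) ^ 2 := by ring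
      _ = _ := by rw [hxyz]; ring
  · refine hχ _ _ (hlt _ hbx) (hlt _ hby) hc1 fun j => ?_
    exact (hPe 0 j).trans (hPe 1 j).symm
  · refine hχ _ _ (hlt _ hby) (hlt _ hbz) hc2 fun j => ?_
    exact (hPe 1 j).trans (hPe 2 j).symm

end Pool.Agent.Results.MP_0f91f8_co.LowDegreeColourings
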