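import Pool.Agent.H576P.Main2

open Pool.Agent.H576.Pyth2

/-- `MP_0f91f8_co`, a class of colourings: let `S` be a set of primes with convergent sum of
reciprocals, `M ≥ 1` and `b ≥ 2`.  Let `c` be a finite colouring such that `c (T u) = c (T u')`
whenever `T ≥ 1`, `u, u' ≡ 1 (mod M)` have no prime factor in `S`, and `T u`, `T u'` have the same
number of digits in base `b`.  Then there is a monochromatic Pythagorean triple. -/
theorem Pool.Agent.Results.MP_0f91f8_co.SparsePrimeColourings.result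
    (S : Set ℕ) (hS : ∀ p ∈ S, p.Prime) (hsum : Summable (fun p : S => (1 : ℝ) / (p : ℕ)))
    (M b : ℕ) (hM : 0 < M) (hb : 2 ≤ b) {κ : Type*} [Finite κ] (c : ℕ → κ)
    (hc : ∀ T u u' : ℕ, 0 < T → 0 < u → 0 < u' → u ≡ 1 [MOD M] → u' ≡ 1 [MOD M] →
      (∀ p ∈ S, ¬ p ∣ u) → (∀ p ∈ S, ¬ p ∣ u') → Nat.log b (T * u) = Nat.log b (T * u') →
      c (T * u) = c (T * u')) :
    ∃ x y z : ℕ, 0 < x ∧ 0 < y ∧ 0 < z ∧ x ^ 2 + y ^ 2 = z ^ 2 ∧ c x = c y ∧ c y = c z :=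
  main2 S hS hsum M b hM hb c hc
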